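import Mathlib
import Pool.Agent.ANO.FIN

open scoped Manifold ContDiff

namespace Pool.Agent.Results.MP_055d8a_an.PinchedCover

variable (d : ℕ) {M : Type} [TopologicalSpace M] [ChartedSpace (EuclideanSpace ℝ (Fin d)) M]

/-- The tangent space of `M` at `x`. -/
def Vec (x : M) : Type := TangentSpace (𝓡 d) x

/-- The addition of tangent vectors. -/
noncomputable instance addVec (x : M) : AddCommGroup (Vec d x) :=
  (inferInstance : AddCommGroup (TangentSpace (𝓡 d) x))

/-- The multiplication of tangent vectors by real numbers. -/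
noncomputable instance smulVec (x : M) : Module ℝ (Vec d x) :=
  (inferInstance : Module ℝ (TangentSpace (𝓡 d) x))

/-- The derivative of `f` at `x`, applied to the tangent vector `v`. -/
noncomputable def der (f : M → M) (x : M) (v : Vec d x) : Vec d (f x) :=
  (tangentMap (𝓡 d) (𝓡 d) f ⟨x, v⟩).2

/-- `f` is continuously differentiable. -/
def IsC1 (f : M → M) : Prop := ContMDiff (𝓡 d) (𝓡 d) 1 f

/-- `N` is a continuous function on the tangent bundle. -/
def IsCont [IsManifold (𝓡 d) ∞ M] (N : ∀ x : M, Vec d x → ℝ) : Prop :=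
  Continuous (fun p : TangentBundle (𝓡 d) M => N p.1 p.2)

/-- `N` is a norm on every tangent space. -/
def IsNorm (N : ∀ x : M, Vec d x → ℝ) : Prop :=
  (∀ (x : M) (v w : Vec d x), N x (v + w) ≤ N x v + N x w) ∧
  (∀ (x : M) (c : ℝ) (v : Vec d x), N x (c • v) = |c| * N x v) ∧
  (∀ (x : M) (v : Vec d x), N x v = 0 → v = 0)

/-- The family of subspaces `F` is mapped into itself by the derivative of `f`. -/
def IsInvariant (f : M → M) (F : ∀ x : M, Submodule ℝ (Vec d x)) : Prop :=
  ∀ (x : M) (v : Vec d x), v ∈ F x → der d f x v ∈ F (f x)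

/-- Up to the constant factor `C`, the derivative of the `k`-th iterate of `f` multiplies the norm of the
vectors of `F` by a number between `exp (lo * k)` and `exp (hi * k)`. -/
def HasRates (f : M → M) (N : ∀ x : M, Vec d x → ℝ) (F : ∀ x : M, Submodule ℝ (Vec d x))
    (C lo hi : ℝ) : Prop :=
  ∀ (x : M) (v : Vec d x), v ∈ F x → ∀ k : ℕ,
    Real.exp (lo * k) * N x v ≤ C * N (f^[k] x) (der d (f^[k]) x v) ∧
    N (f^[k] x) (der d (f^[k]) x v) ≤ C * Real.exp (hi * k) * N x v

/-- Let `f` be a `C^1` Anosov diffeomorphism of a compact connected smooth manifold `M` of dimension `d`, with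
continuous norm `N` and invariant splitting `Es ⊕ Eu`. Suppose that the contraction rates on `Es` lie between
`exp (-b)` and `exp (-a)`, that the expansion rates on `Eu` lie between `exp c` and `exp e` (up to a constant
factor `C`), and that `(b - a) (e - c) < a c`. Then `ℝ^d` covers `M`, so the universal cover of `M` is `ℝ^d`. -/
theorem result (M : Type) [TopologicalSpace M] [T2Space M] [CompactSpace M]
    [ConnectedSpace M] [ChartedSpace (EuclideanSpace ℝ (Fin d)) M] [IsManifold (𝓡 d) ∞ M]
    (f g : M → M) (hf : IsC1 d f) (hg : IsC1 d g)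
    (gf : Function.LeftInverse g f) (fg : Function.RightInverse g f)
    (N : ∀ x : M, Vec d x → ℝ) (hN : IsCont d N) (hN' : IsNorm d N)
    (Es Eu : ∀ x : M, Submodule ℝ (Vec d x)) (hcompl : ∀ x : M, IsCompl (Es x) (Eu x))
    (inv_s : IsInvariant d f Es) (inv_u : IsInvariant d f Eu)
    (C a b c e : ℝ) (hC : 0 < C) (ha : 0 < a) (hab : a ≤ b) (hc : 0 < c) (hce : c ≤ e)
    (hs : HasRates d f N Es C (-b) (-a)) (hu : HasRates d f N Eu C c e)
    (pinch : (b - a) * (e - c) < a * c) :
    ∃ p : EuclideanSpace ℝ (Fin d) → M, IsCoveringMap p := by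
  obtain ⟨h2, h3, h4⟩ := hN'
  refine Pool.Agent.ANO.pinched_covering d M f g hf hg gf fg N hN h2 h3 h4 C a b c e hC ha
    hab hc hce pinch Es Eu hcompl inv_s inv_u ?_ ?_ ?_ ?_
  · intro x v hv k
    have := (hs x v hv k).2
    rw [neg_mul] at this
    exact this
  · intro x v hv k
    have := (hs x v hv k).1
    rw [neg_mul] at this
    exact this
  · intro x v hv k
    exact (hu x v hv k).1
  · intro x v hv k
    exact (hu x v hv k).2

end Pool.Agent.Results.MP_055d8a_an.PinchedCover
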