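import Mathlib
import Pool.Agent.ANC.FNC

open scoped Manifold ContDiff

namespace Pool.Agent.Results.MP_055d8a_an.UnstableQuasiconformal

variable (d : ℕ) {M : Type} [TopologicalSpace M] [ChartedSpace (EuclideanSpace ℝ (Fin d)) M]

/-- The tangent space of `M` at `x`. -/
def Vec (x : M) : Type := TangentSpace (𝓡 d) x

/-- The addition of tangent vectors. -/
noncomputable instance addVec (x : M) : AddCommGroup (Vec d x) :=
  (inferInstance : AddCommGroup (TangentSpace (𝓡 d) x))

/-- The multiplication of tangent vectors by real numbers. -/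
noncomputable instance smulVec (x : M) : Module ℝ (Vec d x) :=
  (inferInstance : Module ℝ (TangentSpace (𝓡 d) x))

/-- The derivative of `f` at `x`, applied to the tangent vector `v`. -/
noncomputable def der (f : M → M) (x : M) (v : Vec d x) : Vec d (f x) :=
  (tangentMap (𝓡 d) (𝓡 d) f ⟨x, v⟩).2

/-- `f` is twice continuously differentiable. -/
def IsC2 (f : M → M) : Prop := ContMDiff (𝓡 d) (𝓡 d) 2 f

/-- Every point is non-wandering for `f`: every nonempty open set comes back to itself at some time `n ≥ 1`. -/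
def AllNonwandering {M : Type} [TopologicalSpace M] (f : M → M) : Prop :=
  ∀ V : Set M, IsOpen V → V.Nonempty → ∃ n : ℕ, 1 ≤ n ∧ ∃ x ∈ V, f^[n] x ∈ V

/-- `N` is a continuous function on the tangent bundle. -/
def IsCont [IsManifold (𝓡 d) ∞ M] (N : ∀ x : M, Vec d x → ℝ) : Prop :=
  Continuous (fun p : TangentBundle (𝓡 d) M => N p.1 p.2)

/-- `N` is a norm on every tangent space. -/
def IsNorm (N : ∀ x : M, Vec d x → ℝ) : Prop :=
  (∀ (x : M) (v w : Vec d x), N x (v + w) ≤ N x v + N x w) ∧
  (∀ (x : M) (c : ℝ) (v : Vec d x), N x (c • v) = |c| * N x v) ∧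
  (∀ (x : M) (v : Vec d x), N x v = 0 → v = 0)

/-- The family of subspaces `F` is mapped into itself by the derivative of `f`. -/
def IsInvariant (f : M → M) (F : ∀ x : M, Submodule ℝ (Vec d x)) : Prop :=
  ∀ (x : M) (v : Vec d x), v ∈ F x → der d f x v ∈ F (f x)

/-- The derivative of the `k`-th iterate of `f` multiplies the norm of the vectors of `F` by at most
`C * μ ^ k`. -/
def Contracts (f : M → M) (N : ∀ x : M, Vec d x → ℝ) (F : ∀ x : M, Submodule ℝ (Vec d x))
    (C μ : ℝ) : Prop :=
  ∀ (x : M) (v : Vec d x), v ∈ F x → ∀ k : ℕ, N (f^[k] x) (der d (f^[k]) x v) ≤ C * μ ^ k * N x v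

/-- The derivatives of the iterates of `f` are quasiconformal on `F` with the constant `Q`. -/
def IsQuasiconformal (f : M → M) (N : ∀ x : M, Vec d x → ℝ) (F : ∀ x : M, Submodule ℝ (Vec d x))
    (Q : ℝ) : Prop :=
  ∀ (x : M) (v w : Vec d x), v ∈ F x → w ∈ F x → ∀ k : ℕ,
    N (f^[k] x) (der d (f^[k]) x v) * N x w ≤ Q * (N (f^[k] x) (der d (f^[k]) x w) * N x v)

/-- Let `f` be a `C^2` Anosov diffeomorphism of a compact connected smooth manifold `M` of dimension `d`, with
inverse `g`, continuous norm `N`, invariant splitting `Es ⊕ Eu`, and constants `C > 0`, `0 < μ < 1`. Suppose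
that every point of `M` is non-wandering, that `Eu` has dimension at least two and that the derivatives of the
iterates of `f` are quasiconformal on `Eu` with a uniform constant `Q`. Then `ℝ^d` covers `M`, so the
universal cover of `M` is `ℝ^d`. -/
theorem result (M : Type) [TopologicalSpace M] [T2Space M] [CompactSpace M]
    [ConnectedSpace M] [ChartedSpace (EuclideanSpace ℝ (Fin d)) M] [IsManifold (𝓡 d) ∞ M]
    (f g : M → M) (hf : IsC2 d f) (hg : IsC2 d g)
    (gf : Function.LeftInverse g f) (fg : Function.RightInverse g f) (hnw : AllNonwandering f)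
    (N : ∀ x : M, Vec d x → ℝ) (hN : IsCont d N) (hN' : IsNorm d N)
    (Es Eu : ∀ x : M, Submodule ℝ (Vec d x)) (hcompl : ∀ x : M, IsCompl (Es x) (Eu x))
    (inv_s : IsInvariant d f Es) (inv_u : IsInvariant d f Eu)
    (C μ Q : ℝ) (hC : 0 < C) (hμ : 0 < μ) (hμ1 : μ < 1)
    (hs : Contracts d f N Es C μ) (hu : Contracts d g N Eu C μ)
    (hdim : ∀ x : M, 2 ≤ Module.finrank ℝ (Eu x)) (hq : IsQuasiconformal d f N Eu Q) :
    ∃ p : EuclideanSpace ℝ (Fin d) → M, IsCoveringMap p := by
  obtain ⟨h2, h3, h4⟩ := hN'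
  exact Pool.Agent.ANC.qc_covering d M f g hf hg gf fg hnw N ⟨hN, h2, h3, h4⟩ C μ hC hμ hμ1 Es Eu hcompl
    hdim inv_s inv_u hs hu Q hq

end Pool.Agent.Results.MP_055d8a_an.UnstableQuasiconformal
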